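import Pool.Agent.V11237.LP.Exact

set_option autoImplicit false

/-!
# Almost prime Cunningham chains of the second kind of exact length `k`: the primes they start at, and
the law after these primes

Let `q > 2 ^ k` be a prime and `b` a residue with `q ∣ c_k (b)`. The chains starting at the
`m = q n + b` have a composite term number `k` (divisible by `q`), and `n` is good if none of the first
`k` terms has a prime factor `p ≤ N ^ (1 / r)`.
-/

namespace Pool.Agent.Results.MP_39b545_nt.ExactLengthLaw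

open Finset
open Pool.Agent.V11237.LP.Chain

/-- **Theorem.** Let `k ≥ 2`, let `q > 2 ^ k` be prime and let `q` divide `2 ^ j (m - 1) + 1` with `m = b`, `j = k`.
Then the term number `k` of the chain starting at `q n + b`, `n ≥ 1`, is a composite multiple of `q`. For
`θ, δ > 0`, `δ ≤ 1`, `x₀` and `0 < ε ≤ 1` there is `r₀` such that for all `r ≥ r₀` and all large `N`:
(1) the good `n ≤ N` give chains of numbers with at most `r` prime factors, and `V > 0`; for all
`X ≥ N ^ θ` and all windows `(u, u + Y] ⊆ (0, X]` with `Y ≥ δ X`: (2) the number of the good `n` in the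
window for which the first term is PRIME is `Y (V / U) / log X` up to a relative error `ε`; (3) for all
`T` with `T V ≤ x₀` and every finite set `S` of integers, the number of these `n` for which the number of
the good `l` in `(n, n + T]` lies in `S` is `∑_{j ∈ S} e ^ (-T V) (T V) ^ j / j!` times the number of all
these `n`, up to at most `ε` times this number. -/
theorem result (k q b : ℕ) (hk : 2 ≤ k) (hq : q.Prime) (hkq : 2 ^ k < q)
    (hb : (q : ℤ) ∣ c (-1) k b) (θ δ : ℝ) (hθ : 0 < θ) (hδ : 0 < δ) (hδ1 : δ ≤ 1)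
    (x₀ ε : ℝ) (hε : 0 < ε) (hε1 : ε ≤ 1) :
    (∀ n : ℕ, 1 ≤ n → (q : ℤ) ∣ c (-1) k (q * n + b) ∧ ¬ (c (-1) k (q * n + b)).natAbs.Prime) ∧
    ∃ r₀ : ℕ, 2 ≤ r₀ ∧ ∀ r : ℕ, r₀ ≤ r → ∃ N₀ : ℕ, ∀ N : ℕ, N₀ ≤ N →
      ((∀ n : ℕ, n ≤ N → Good (-1) k q b N r n →
          ∀ j < k, (c (-1) j (q * n + b)).natAbs.primeFactorsList.length ≤ r) ∧
        0 < V (-1) k q b N r) ∧
      ∀ X : ℕ, (N : ℝ) ^ θ ≤ X → ∀ u Y : ℕ, δ * X ≤ Y → u + Y ≤ X →
        |((P (-1) k q b N r u Y).card : ℝ) * Real.log X - Y * (V (-1) k q b N r / U N r)| ≤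
          ε * (Y * (V (-1) k q b N r / U N r)) ∧
        ∀ T : ℕ, T * V (-1) k q b N r ≤ x₀ → ∀ S : Finset ℕ,
        |(((P (-1) k q b N r u Y).filter (fun n => Next (-1) k q b N r T n ∈ S)).card : ℝ) -
          (P (-1) k q b N r u Y).card *
            ∑ j ∈ S, Real.exp (-(T * V (-1) k q b N r)) * (T * V (-1) k q b N r) ^ j / j.factorial| ≤
          ε * (P (-1) k q b N r u Y).card :=
  exact_law (-1) (by norm_num) k q b hk hq hkq hb θ δ hθ hδ hδ1 x₀ ε hε hε1

end Pool.Agent.Results.MP_39b545_nt.ExactLengthLaw
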