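import Pool.Agent.V11249.NP.Nar
import Pool.Agent.V11249.NP.Chain
import Pool.Agent.Y840.CT.Gen

/-!
# Cunningham chains of the second kind of exact length: narrow progressions of primes which start them

For every length `l` consider the PRIMES `p` for which the terms `2 ^ i (p - 1) + 1`, `i < l`, are almost primes and the
next term `2 ^ l (p - 1) + 1` is composite. Every set of such primes of positive relative density contains the expected
order of magnitude of `k`-term arithmetic progressions with differences at most `D`, for all `D` down to a power of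
`log N`.
-/

set_option autoImplicit false

open Finset Filter Polynomial

namespace Pool.Agent.Results.MP_39b545_nt.NarrowProgressions

/-- the `i`-th term of the chain of the second kind starting at `p`: `2 ^ i (p - 1) + 1` -/
def term (p i : ℕ) : ℕ := 2 ^ i * (p - 1) + 1

open Classical in
/-- the PRIMES `p` in `(u, u + Y]` such that no prime `q ≤ N ^ (1 / r)` divides one of the first `l` terms -/
noncomputable def P (l r N u Y : ℕ) : Finset ℕ :=
  (Ioc u (u + Y)).filter (fun p => p.Prime ∧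
    ∀ i < l, ∀ q : ℕ, q.Prime → (q : ℝ) ≤ (N : ℝ) ^ (1 / (r : ℝ)) → ¬ q ∣ term p i)

open Classical in
/-- the elements of `P` for which the next term is NOT prime: the chain has the exact length `l` -/
noncomputable def E (l r N u Y : ℕ) : Finset ℕ := (P l r N u Y).filter (fun p => ¬ (term p l).Prime)

open Classical in
/-- The number of the progressions `a, a + d, …, a + (k - 1) d` in `S` with `1 ≤ d ≤ D`. -/
noncomputable def AP (k D : ℕ) (S : Finset ℕ) : ℕ :=
  ((S ×ˢ Icc 1 D).filter (fun q => ∀ j < k, q.1 + j * q.2 ∈ S)).card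

open Pool.Agent.V11249.NP.Chain (f fe ev ev_two sys)
open Pool.Agent.H373R2.T7 Pool.Agent.W123.RP Pool.Agent.Y879.PR
open Pool.Agent.W123.RU.Poly (Q)

theorem notr (l : ℕ) : Pool.Agent.TH464.PO.NoTr (f l (-1)) := by
  refine Pool.Agent.V11249.NP.noTr_quad (fun _ : Fin l => 0) (fun i => 2 ^ (i : ℕ)) (fun i => -1 * (2 ^ (i : ℕ) - 1)) ?_
  rintro i j t ht ⟨-, h2, h3⟩
  simp only [mul_zero, zero_mul, zero_add] at h2 h3
  rw [h2] at h3
  have h4 : (0 : ℤ) < 2 ^ (j : ℕ) := by positivity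
  nlinarith

theorem f_zero {l : ℕ} (hl : 0 < l) : f l (-1) ⟨0, hl⟩ = X := by
  rw [fe]
  simp

theorem P_eq (l r N u Y : ℕ) : Om 1 0 (Q (f l (-1))) ⌊(N : ℝ) ^ (1 / (r : ℝ))⌋₊ u Y = P l r N u Y := by
  classical
  unfold Om P
  apply filter_congr
  intro p hp
  have hp1 : 1 ≤ p := by
    rw [mem_Ioc] at hp
    omega
  rw [one_mul, add_zero]
  apply and_congr_right
  intro _
  have h0 : (0 : ℝ) ≤ (N : ℝ) ^ (1 / (r : ℝ)) := by positivity
  constructor
  · intro h i hi q hq hqN hd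
    refine h q (mem_pz.2 ⟨Nat.le_floor hqN, hq⟩) ⟨⟨i, hi⟩, ?_⟩
    rw [ev_two _ _ hp1]
    exact Int.natCast_dvd_natCast.2 hd
  · rintro h q hq ⟨i, hi⟩
    obtain ⟨h1, h2⟩ := mem_pz.1 hq
    rw [ev_two _ _ hp1] at hi
    exact h i i.isLt q h2 ((Nat.le_floor_iff h0).1 h1) (Int.natCast_dvd_natCast.1 hi)

theorem few (l r : ℕ) (hr : 1 ≤ r) : ∀ᶠ N : ℕ in atTop, ∀ m : ℕ, m ≤ N → ∀ i < l,
    (∀ q : ℕ, q.Prime → (q : ℝ) ≤ (N : ℝ) ^ (1 / (r : ℝ)) → ¬ q ∣ term m i) →
      (term m i).primeFactorsList.length ≤ 2 * r := by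
  filter_upwards [eventually_ge_atTop (2 ^ (l + 1) + 1)] with N hN m hm i hi h
  have hr0 : (r : ℝ) ≠ 0 := by
    have : (0 : ℝ) < r := by exact_mod_cast hr
    exact this.ne'
  have hN1 : 2 ^ (l + 1) < N := by omega
  have hNR : (1 : ℝ) < N := by
    have : 1 ≤ 2 ^ (l + 1) := Nat.one_le_two_pow
    exact_mod_cast (by omega : 1 < N)
  have hk : term m i ≠ 0 := by
    unfold term
    omega
  have hy1 : (1 : ℝ) < (N : ℝ) ^ (1 / (r : ℝ)) := Real.one_lt_rpow hNR (by positivity)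
  have hpow : ((N : ℝ) ^ (1 / (r : ℝ))) ^ (2 * r) = (N : ℝ) ^ 2 := by
    rw [← Real.rpow_natCast ((N : ℝ) ^ (1 / (r : ℝ))) (2 * r), ← Real.rpow_mul (by positivity)]
    push_cast
    rw [show 1 / (r : ℝ) * (2 * r) = 2 by field_simp]
    norm_num
  refine Pool.Agent.Y840.CT.length_le (t := 2 * r) (y := (N : ℝ) ^ (1 / (r : ℝ))) (B := (N : ℝ) ^ 2) hk hy1.le ?_ ?_ ?_
  · have h2 : term m i ≤ N ^ 2 := by
      unfold term
      have h3 : 2 ^ i ≤ 2 ^ l := Nat.pow_le_pow_right (by norm_num) hi.le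
      have hN0 : 1 ≤ N := by exact_mod_cast hNR.le
      have h4 : 2 ^ i * (m - 1) ≤ 2 ^ l * N := Nat.mul_le_mul h3 (by omega)
      have h5 : 2 * (2 ^ l * N) = 2 ^ (l + 1) * N := by ring
      have h8 : 1 ≤ 2 ^ l * N := Nat.one_le_iff_ne_zero.2 (by positivity)
      have h6 : 2 ^ (l + 1) * N ≤ N * N := Nat.mul_le_mul_right _ hN1.le
      have h7 : N ^ 2 = N * N := by ring
      omega
    exact_mod_cast h2
  · rw [pow_succ ((N : ℝ) ^ (1 / (r : ℝ))) (2 * r), hpow]
    have : (0 : ℝ) < (N : ℝ) ^ 2 := by positivity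
    nlinarith
  · intro q hq hd
    by_contra hcon
    rw [not_lt] at hcon
    exact h q hq hcon hd

/-- Let `l ≥ 1`, `0 < θ ≤ 1`. There is `r₀` such that for every `r ≥ r₀` there are `c₁, c₂ > 0` such that for all
`k ≥ 1`, `η > 0` there are `c₀ > 0`, `B` with: for all large `N` and all `u`, `Y` with `Y ≥ θ N`, `u + Y ≤ N`: (1) for
`p` in `E l r N u Y` the first `l` terms have at most `2 r` prime factors; (2) the number of elements of `E l r N u Y`
is between `c₁ Y / log ^ l N` and `c₂ Y / log ^ l N`; (3) every subset of `E l r N u Y` of relative density at least `η`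
contains at least `c₀ Y D / log ^ (l k) N` progressions of length `k` with differences at most `D`, for all `D` between
`log ^ B N` and `Y`. -/
theorem result (l : ℕ) (hl : 1 ≤ l) (θ : ℝ) (hθ : 0 < θ) (hθ1 : θ ≤ 1) :
    ∃ r₀ : ℕ, 2 ≤ r₀ ∧ ∀ r : ℕ, r₀ ≤ r → ∃ c₁ c₂ : ℝ, 0 < c₁ ∧ 0 < c₂ ∧ ∀ k : ℕ, 1 ≤ k → ∀ η : ℝ, 0 < η →
      ∃ c₀ : ℝ, 0 < c₀ ∧ ∃ B N₀ : ℕ, ∀ N : ℕ, N₀ ≤ N → ∀ u Y : ℕ, θ * N ≤ Y → u + Y ≤ N →
        (∀ p ∈ E l r N u Y, ∀ i < l, (term p i).primeFactorsList.length ≤ 2 * r) ∧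
        c₁ * Y / Real.log N ^ l ≤ ((E l r N u Y).card : ℝ) ∧ ((E l r N u Y).card : ℝ) ≤ c₂ * Y / Real.log N ^ l ∧
        ∀ S : Finset ℕ, S ⊆ E l r N u Y → η * (E l r N u Y).card ≤ S.card →
          ∀ D : ℕ, Real.log N ^ B ≤ D → D ≤ Y → c₀ * Y * D / Real.log N ^ (l * k) ≤ (AP k D S : ℝ) := by
  classical
  obtain ⟨r0, hr0, H⟩ := Pool.Agent.V11249.NP.narrow (f l (-1)) (sys l (-1) (Or.inr rfl)) (notr l) ⟨0, hl⟩
    (f_zero hl) θ hθ hθ1
  obtain ⟨r1, hr1, G⟩ := Pool.Agent.V11249.NP.narrow (f (l + 1) (-1)) (sys (l + 1) (-1) (Or.inr rfl)) (notr (l + 1))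
    ⟨0, Nat.succ_pos l⟩ (f_zero (Nat.succ_pos l)) θ hθ hθ1
  refine ⟨max r0 r1, by omega, fun r hr => ?_⟩
  obtain ⟨c₁, c₂, h1, h2, H⟩ := H r (by omega)
  obtain ⟨d₁, d₂, -, hd2, G⟩ := G r (by omega)
  obtain ⟨e₀, he₀, B', G'⟩ := G 1 le_rfl 1 one_pos
  refine ⟨c₁ / 2, c₂, by positivity, h2, fun k hk η hη => ?_⟩
  obtain ⟨c₀, h0, B, H⟩ := H k hk (η / 2) (by positivity)
  have hlog : ∀ᶠ N : ℕ in atTop, max 1 (2 * d₂ / c₁) ≤ Real.log N :=
    (Real.tendsto_log_atTop.comp tendsto_natCast_atTop_atTop).eventually (eventually_ge_atTop _)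
  obtain ⟨N₀, H⟩ := eventually_atTop.1 (((H.and G').and (few l r (by omega))).and hlog)
  refine ⟨c₀, h0, B, N₀, fun N hN u Y hY huY => ?_⟩
  obtain ⟨⟨⟨H1, G1⟩, H2⟩, hlogN⟩ := H N hN
  have hl1 : 1 ≤ Real.log N := (le_max_left _ _).trans hlogN
  have hl2 : 2 * d₂ / c₁ ≤ Real.log N := (le_max_right _ _).trans hlogN
  have hl0 : 0 < Real.log N := by linarith
  obtain ⟨H3, H4, H5⟩ := H1 u Y hY huY
  obtain ⟨-, G3, -⟩ := G1 u Y hY huY
  rw [P_eq] at H3 H4 H5 G3
  have hEP : E l r N u Y ⊆ P l r N u Y := filter_subset _ _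
  -- the chains which are longer
  have hsub : P l r N u Y \ E l r N u Y ⊆ P (l + 1) r N u Y := by
    intro p hp
    rw [Finset.mem_sdiff] at hp
    obtain ⟨hp1, hp2⟩ := hp
    have hpr : (term p l).Prime := by
      by_contra hcon
      exact hp2 (mem_filter.2 ⟨hp1, hcon⟩)
    unfold P at hp1 ⊢
    rw [mem_filter] at hp1 ⊢
    obtain ⟨a1, a2, a3⟩ := hp1
    refine ⟨a1, a2, fun i hi q hq hqN hd => ?_⟩
    rcases Nat.lt_or_ge i l with hil | hil
    · exact a3 i hil q hq hqN hd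
    · have : i = l := by omega
      subst this
      have hqe : q = term p i := (Nat.prime_dvd_prime_iff_eq hq hpr).1 hd
      have ht0 : term p 0 = p := by
        unfold term
        have := a2.one_lt
        omega
      have hle : p ≤ term p i := by
        unfold term
        have h7 : 1 * (p - 1) ≤ 2 ^ i * (p - 1) := Nat.mul_le_mul_right _ Nat.one_le_two_pow
        have := a2.one_lt
        omega
      refine a3 0 hl p a2 ?_ (by rw [ht0])
      have : (p : ℝ) ≤ q := by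
        rw [hqe]
        exact_mod_cast hle
      linarith
  have hcard : ((P l r N u Y).card : ℝ) ≤ (E l r N u Y).card + (P (l + 1) r N u Y).card := by
    have g1 := card_sdiff_add_card_eq_card hEP
    have g2 := card_le_card hsub
    exact_mod_cast (by omega : (P l r N u Y).card ≤ (E l r N u Y).card + (P (l + 1) r N u Y).card)
  have hsmall : ((P (l + 1) r N u Y).card : ℝ) ≤ 1 / 2 * (c₁ * Y / Real.log N ^ l) := by
    refine G3.trans ?_
    have hd : d₂ ≤ 1 / 2 * c₁ * Real.log N := by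
      rw [div_le_iff₀ h1] at hl2
      linarith
    calc d₂ * Y / Real.log N ^ (l + 1) ≤ 1 / 2 * c₁ * Real.log N * Y / Real.log N ^ (l + 1) := by gcongr
      _ = 1 / 2 * (c₁ * Y / Real.log N ^ l) := by
        rw [pow_succ]
        field_simp
  refine ⟨fun p hp i hi => ?_, ?_, ?_, ?_⟩
  · have hp' := hEP hp
    unfold P at hp'
    rw [mem_filter, mem_Ioc] at hp'
    exact H2 p (by omega) i hi (hp'.2.2 i hi)
  · have : c₁ / 2 * Y / Real.log N ^ l = 1 / 2 * (c₁ * Y / Real.log N ^ l) := by ring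
    rw [this]
    linarith
  · refine le_trans ?_ H4
    exact_mod_cast card_le_card hEP
  · intro S hS hSc
    refine H5 S (hS.trans hEP) (le_trans ?_ hSc)
    have h9 : ((P l r N u Y).card : ℝ) ≤ 2 * (E l r N u Y).card := by linarith
    calc η / 2 * ((P l r N u Y).card : ℝ) ≤ η / 2 * (2 * (E l r N u Y).card) := by gcongr
      _ = _ := by ring

end Pool.Agent.Results.MP_39b545_nt.NarrowProgressions
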