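import Pool.Agent.V11150.RatM

/-!
# A third of ALL times are gaps between isolated consecutive primes of the Cunningham sequences of the
second kind

`a_j(p) = 2 ^ j * (p - 1) + 1`. There is an absolute constant `C` such that for all `R` and `ε > 0`, in
every sufficiently long window `u < j ≤ u + T` at least `(1 / 3 - ε) T` of ALL the times `j` have the
following property, for arbitrarily large `x`. For at least `x / (log x) ^ C` primes `p ≤ x` the number
`a_j(p)` is the first prime after `p` in the sequence of `p`, none of the next `R` numbers of the sequence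
is prime, and `p` is none of the numbers `a_1(q), ..., a_R(q)` for any prime `q`. The case `j = 1` says that
infinitely many primes start a chain of exact length two.

Proof: the coloured Maynard-Tao theorem with the constant `18 / 5 < 4` and a power of the logarithm
(`Y827.RO.lamR0`: two of any four classes of forms), congruences which make the values at all other
times composite, a choice of one form from every class which keeps the forms more than `R` apart, and
the theorem on four classes and all multiples of two (`W432.UB.main`).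
-/

set_option autoImplicit false

namespace Pool.Agent.Results.MP_39b545_nt.ThirdOfAllTimes

open Filter

theorem result : ∃ C : ℕ, ∀ (R : ℕ) (ε : ℝ), 0 < ε → ∃ L : ℕ, ∀ T : ℕ, L ≤ T → ∀ u : ℕ,
    (1 / 3 - ε) * (T : ℝ) ≤ ({j : ℕ | u < j ∧ j ≤ u + T ∧ ∃ᶠ x : ℕ in atTop,
      (x : ℝ) / (Real.log x) ^ C ≤ ({p : ℕ | p ≤ x ∧ p.Prime ∧ (2 ^ j * (p - 1) + 1).Prime ∧
        (∀ l, 0 < l → l < j → ¬ (2 ^ l * (p - 1) + 1).Prime) ∧
        ∀ l, 0 < l → l ≤ R → ¬ (2 ^ (j + l) * (p - 1) + 1).Prime ∧
          ∀ q : ℕ, q.Prime → 2 ^ l * (q - 1) + 1 ≠ p}.ncard : ℝ)}.ncard : ℝ) := by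
  obtain ⟨C, hC⟩ := Pool.Agent.V11150.RatM.transfer
  refine ⟨C, fun R ε hε => hC 2 (-1) (by norm_num) (by norm_num) isCoprime_one_right.neg_right
    (by decide) (fun p j => 2 ^ j * (p - 1) + 1) (fun p j hp => ?_) R ε hε⟩
  have h1 : 1 ≤ p := hp.one_lt.le
  push_cast [Nat.cast_sub h1]
  clear h1 hp
  induction j with
  | zero =>
    rw [Pool.Agent.V11150.RatL.cj_zero]
    simp
  | succ j ih =>
    rw [Pool.Agent.V11150.RatL.cj_succ, pow_succ]
    linear_combination 2 * ih

end Pool.Agent.Results.MP_39b545_nt.ThirdOfAllTimes
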